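import Mathlib

open Filter Topology Finset
open scoped Pointwise ENNReal

namespace Pool.Agent.Results.MP_2cfe26_al.Zero

/-- The trajectory `T_F(X) = ∑_{g ∈ F} g·X` (a sumset). -/
def traj {G A : Type*} [Group G] [AddCommGroup A] [DistribMulAction G A]
    (F : Finset G) (X : Set A) : Set A := ∑ g ∈ F, g • X

/-- `ℓ(Y) = log |Y|`. -/
noncomputable def ell {A : Type*} (Y : Set A) : ℝ := Real.log (Nat.card Y)

open Classical in
/-- Right Følner net, indexed along a non-trivial filter (for a net: `atTop`). -/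
def IsFolner {G ι : Type*} [Group G] (l : Filter ι) (F : ι → Finset G) : Prop :=
  l.NeBot ∧ (∀ i, (F i).Nonempty) ∧ ∀ E : Finset G,
    Tendsto (fun i => (((F i).filter fun s => ¬ ∀ e ∈ E, s * e ∈ F i).card : ℝ) / (F i).card)
      l (𝓝 0)

/-- `H_alg(α,X)`: the limit of `ℓ(T_{F_i}(X)) / |F_i|`. -/
noncomputable def Halg {G A ι : Type*} [Group G] [AddCommGroup A] [DistribMulAction G A]
    (l : Filter ι) (F : ι → Finset G) (X : Set A) : ℝ :=
  limUnder l fun i => ell (traj (F i) X) / (F i).card

/-- `ent(α)`: supremum of `H_alg(α,X)` over finite subgroups `X`. -/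
noncomputable def ent {G ι : Type*} (A : Type*) [Group G] [AddCommGroup A] [DistribMulAction G A]
    (l : Filter ι) (F : ι → Finset G) : ℝ≥0∞ :=
  ⨆ X : {X : AddSubgroup A // Finite X}, ENNReal.ofReal (Halg l F (X.1 : Set A))

section
variable {G A : Type*} [Group G] [AddCommGroup A] [DistribMulAction G A]

def sm (g : G) (X : AddSubgroup A) : AddSubgroup A := X.map (DistribSMul.toAddMonoidHom A g)

def S (X : AddSubgroup A) (F : Finset G) : AddSubgroup A := F.sup fun g => sm g X

lemma coe_sup' (U V : AddSubgroup A) : ((U ⊔ V : AddSubgroup A) : Set A) = (U : Set A) + V := by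
  ext x
  simp only [SetLike.mem_coe, AddSubgroup.mem_sup, Set.mem_add]

lemma coe_S (X : AddSubgroup A) (F : Finset G) : (S X F : Set A) = traj F X := by
  classical
  induction F using Finset.induction_on with
  | empty => simp [S, traj]; rfl
  | insert a F ha ih =>
    unfold S traj at *
    rw [Finset.sup_insert, Finset.sum_insert ha, coe_sup', ih]
    rfl

lemma fin_sm (g : G) (X : AddSubgroup A) [Finite X] : Finite (sm g X) := by
  have : ((sm g X : AddSubgroup A) : Set A).Finite := (Set.toFinite (X : Set A)).image _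
  exact this

lemma fin_sup (U V : AddSubgroup A) [Finite U] [Finite V] : Finite (U ⊔ V : AddSubgroup A) := by
  have : ((U ⊔ V : AddSubgroup A) : Set A).Finite := by
    rw [coe_sup']; exact (Set.toFinite (U : Set A)).add (Set.toFinite (V : Set A))
  exact this

lemma fin_S (X : AddSubgroup A) [Finite X] (F : Finset G) : Finite (S X F) := by
  classical
  induction F using Finset.induction_on with
  | empty => simp only [S, Finset.sup_empty]; infer_instance
  | insert a F ha ih =>
    unfold S at *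
    rw [Finset.sup_insert]
    haveI := fin_sm a X
    exact fin_sup _ _

noncomputable def L (U : AddSubgroup A) : ℝ := Real.log (Nat.card U)

lemma L_nonneg (U : AddSubgroup A) : 0 ≤ L U := Real.log_natCast_nonneg _

lemma L_mono {U V : AddSubgroup A} [Finite V] (h : U ≤ V) : L U ≤ L V := by
  haveI : Finite U := Finite.of_injective _ (AddSubgroup.inclusion_injective h)
  apply Real.log_le_log (by exact_mod_cast Nat.card_pos)
  exact_mod_cast AddSubgroup.card_le_of_le h

lemma card_sup (P U : AddSubgroup A) :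
    Nat.card (P ⊔ U : AddSubgroup A) = Nat.card U * U.relIndex P := by
  rw [← AddSubgroup.relIndex_bot_left, ← AddSubgroup.relIndex_bot_left,
    ← AddSubgroup.relIndex_sup_right P U,
    AddSubgroup.relIndex_mul_relIndex ⊥ U (P ⊔ U) bot_le le_sup_right]

lemma L_sub (P : AddSubgroup A) {U V : AddSubgroup A} [Finite P] [Finite U] (h : V ≤ U) :
    L (P ⊔ U) - L U ≤ L (P ⊔ V) - L V := by
  haveI : Finite V := Finite.of_injective _ (AddSubgroup.inclusion_injective h)
  have hU : U.relIndex P ≠ 0 := AddSubgroup.index_ne_zero_of_finite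
  have hV : V.relIndex P ≠ 0 := AddSubgroup.index_ne_zero_of_finite
  have hle : U.relIndex P ≤ V.relIndex P :=
    Nat.le_of_dvd (Nat.pos_of_ne_zero hV) (AddSubgroup.relIndex_dvd_of_le_left P h)
  unfold L
  rw [card_sup, card_sup, Nat.cast_mul, Nat.cast_mul,
    Real.log_mul (by exact_mod_cast Nat.card_pos.ne') (by exact_mod_cast hU),
    Real.log_mul (by exact_mod_cast Nat.card_pos.ne') (by exact_mod_cast hV)]
  have : Real.log (U.relIndex P) ≤ Real.log (V.relIndex P) :=
    Real.log_le_log (by exact_mod_cast Nat.pos_of_ne_zero hU) (by exact_mod_cast hle)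
  linarith

lemma S_mono (X : AddSubgroup A) {F F' : Finset G} (h : F ⊆ F') : S X F ≤ S X F' :=
  Finset.sup_mono h

lemma le_S (X : AddSubgroup A) {F : Finset G} {g : G} (hg : g ∈ F) : sm g X ≤ S X F :=
  Finset.le_sup (f := fun g => sm g X) hg

lemma weights (X : AddSubgroup A) [Finite X] (F : Finset G) :
    ∃ d : G → ℝ, L (S X F) = ∑ t ∈ F, d t ∧ ∀ B ⊆ F, ∑ t ∈ B, d t ≤ L (S X B) := by
  classical
  induction F using Finset.induction_on with
  | empty =>
    refine ⟨0, by simp [S, L], fun B _ => ?_⟩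
    simpa using L_nonneg _
  | insert a F ha ih =>
    obtain ⟨d, h1, h2⟩ := ih
    have hup : ∀ B ⊆ F, ∑ t ∈ B, Function.update d a (L (S X (insert a F)) - L (S X F)) t
        = ∑ t ∈ B, d t := fun B hB => Finset.sum_congr rfl fun t ht =>
      Function.update_of_ne (by rintro rfl; exact ha (hB ht)) _ _
    refine ⟨Function.update d a (L (S X (insert a F)) - L (S X F)), ?_, fun B hB => ?_⟩
    · rw [Finset.sum_insert ha, hup F le_rfl, Function.update_self, ← h1]; ring
    · by_cases haB : a ∈ B
      · have hB' : B.erase a ⊆ F := by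
          intro t ht
          rcases Finset.mem_insert.1 (hB (Finset.mem_of_mem_erase ht)) with h | h
          · exact absurd h (Finset.ne_of_mem_erase ht)
          · exact h
        rw [← Finset.insert_erase haB, Finset.sum_insert (Finset.notMem_erase a B), hup _ hB',
          Function.update_self]
        have h3 := h2 _ hB'
        haveI := fin_sm a X
        haveI := fin_S X F
        have h4 := L_sub (sm a X) (S_mono X hB')
        unfold S at *
        rw [Finset.sup_insert, Finset.sup_insert]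
        linarith
      · have hB' : B ⊆ F := fun t ht => by
          rcases Finset.mem_insert.1 (hB ht) with h | h
          · exact absurd (h ▸ ht) haB
          · exact h
        rw [hup _ hB']; exact h2 _ hB'

lemma sm_sm (g h : G) (X : AddSubgroup A) : sm g (sm h X) = sm (g * h) X := by
  unfold sm
  rw [AddSubgroup.map_map]
  congr 1
  ext x
  simp [mul_smul]

lemma L_sm (g : G) (U : AddSubgroup A) : L (sm g U) = L U := by
  unfold L sm
  rw [← Nat.card_congr (U.equivMapOfInjective _ (MulAction.injective g)).toEquiv]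

lemma sm_mono (g : G) {U V : AddSubgroup A} (h : U ≤ V) : sm g U ≤ sm g V :=
  AddSubgroup.map_mono h

open Classical in
lemma shearer (X : AddSubgroup A) [Finite X] (F K : Finset G) (hK : K.Nonempty) :
    L (S X F) ≤ F.card * (L (S X K) / K.card) +
      ((F.filter fun s => ¬ ∀ e ∈ K⁻¹, s * e ∈ F).card : ℝ) * L X := by
  set F0 := F.filter fun s => ∀ e ∈ K⁻¹, s * e ∈ F with hF0
  obtain ⟨d, h1, h2⟩ := weights X F
  have hKp : (0 : ℝ) < K.card := by exact_mod_cast hK.card_pos
  rw [h1, ← Finset.sum_filter_add_sum_filter_not F (fun s => ∀ e ∈ K⁻¹, s * e ∈ F)]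
  apply add_le_add
  · rw [← mul_div_assoc, le_div_iff₀ hKp]
    have e1 : (∑ t ∈ F0, d t) * K.card = ∑ s ∈ F, ∑ t ∈ F0.filter (fun t => s⁻¹ * t ∈ K), d t := by
      simp_rw [Finset.sum_filter]
      rw [Finset.sum_comm, Finset.sum_mul]
      refine Finset.sum_congr rfl fun t ht => ?_
      rw [← Finset.sum_filter, Finset.sum_const, nsmul_eq_mul, mul_comm]
      congr 2
      symm
      refine Finset.card_bij (fun s _ => s⁻¹ * t) (fun s hs => (Finset.mem_filter.1 hs).2)
        (fun s _ s' _ h => by simpa using h) (fun k hk => ⟨t * k⁻¹, ?_, by group⟩)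
      refine Finset.mem_filter.2 ⟨(Finset.mem_filter.1 ht).2 _ (Finset.inv_mem_inv hk), ?_⟩
      have : (t * k⁻¹)⁻¹ * t = k := by group
      rwa [this]
    rw [e1, ← nsmul_eq_mul, ← Finset.sum_const]
    refine Finset.sum_le_sum fun s _ => ?_
    refine (h2 _ ((Finset.filter_subset _ _).trans (Finset.filter_subset _ _))).trans ?_
    rw [← L_sm s (S X K)]
    haveI := fin_S X K
    haveI := fin_sm s (S X K)
    refine L_mono (Finset.sup_le fun t ht => ?_)
    have : sm t X = sm s (sm (s⁻¹ * t) X) := by rw [sm_sm]; congr 1; group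
    rw [this]
    exact sm_mono s (Finset.le_sup (f := fun g => sm g X) (Finset.mem_filter.1 ht).2)
  · rw [← nsmul_eq_mul, ← Finset.sum_const]
    refine Finset.sum_le_sum fun t ht => ?_
    have := h2 {t} (by simpa using (Finset.mem_filter.1 ht).1)
    rw [Finset.sum_singleton] at this
    refine this.trans (le_of_eq ?_)
    unfold S
    rw [Finset.sup_singleton, L_sm]

noncomputable def m (G : Type*) [Group G] [DistribMulAction G A] (X : AddSubgroup A) : ℝ :=
  ⨅ K : {K : Finset G // K.Nonempty}, L (S X K.1) / K.1.card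

lemma m_le (X : AddSubgroup A) (K : Finset G) (hK : K.Nonempty) :
    m G X ≤ L (S X K) / K.card :=
  ciInf_le (f := fun K : {K : Finset G // K.Nonempty} => L (S X K.1) / K.1.card)
    ⟨0, by rintro _ ⟨K, rfl⟩; exact div_nonneg (L_nonneg _) (Nat.cast_nonneg _)⟩ ⟨K, hK⟩

lemma conv {ι : Type*} {l : Filter ι} {F : ι → Finset G} (hF : IsFolner l F)
    (X : AddSubgroup A) [Finite X] :
    Tendsto (fun i => ell (traj (F i) (X : Set A)) / (F i).card) l (𝓝 (m G X)) := by
  classical
  have e : ∀ i, ell (traj (F i) (X : Set A)) = L (S X (F i)) := fun i => by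
    rw [← coe_S]; rfl
  simp_rw [e]
  refine tendsto_order.2 ⟨fun a ha => Eventually.of_forall fun i =>
    ha.trans_le (m_le X _ (hF.2.1 i)), fun b hb => ?_⟩
  haveI : Nonempty {K : Finset G // K.Nonempty} := ⟨⟨{1}, by simp⟩⟩
  obtain ⟨K, hK⟩ := exists_lt_of_ciInf_lt hb
  have h1 := ((hF.2.2 K.1⁻¹).mul_const (L X)).const_add (L (S X K.1) / K.1.card)
  rw [zero_mul, add_zero] at h1
  filter_upwards [h1.eventually (gt_mem_nhds hK)] with i hi
  refine lt_of_le_of_lt ?_ hi
  have hp : (0 : ℝ) < (F i).card := by exact_mod_cast (hF.2.1 i).card_pos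
  rw [div_le_iff₀ hp]
  have := shearer X (F i) K.1 K.2
  refine this.trans (le_of_eq ?_)
  field_simp

lemma Halg_eq {ι : Type*} {l : Filter ι} {F : ι → Finset G} (hF : IsFolner l F)
    (X : AddSubgroup A) [Finite X] : Halg l F (X : Set A) = m G X := by
  haveI := hF.1
  exact (conv hF X).limUnder_eq

lemma key (H : Subgroup G) (hH : H.index = 0) (X : AddSubgroup A) [Finite X] (k : ℕ)
    (hk : 0 < k) : ∃ Y : AddSubgroup A, Finite Y ∧ k * m G X ≤ m H Y := by
  classical
  haveI : Infinite (G ⧸ H) := Subgroup.index_eq_zero_iff_infinite.1 hH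
  obtain ⟨Q, hQ⟩ := Infinite.exists_subset_card_eq (G ⧸ H) k
  refine ⟨S X (Q.image fun q => q.out⁻¹), fin_S _ _, ?_⟩
  haveI : Nonempty {K : Finset H // K.Nonempty} := ⟨⟨{1}, by simp⟩⟩
  refine le_ciInf fun E => ?_
  set P : Finset G := (E.1 ×ˢ Q).image fun p => (p.1 : G) * p.2.out⁻¹ with hP
  have hc : P.card = E.1.card * k := by
    rw [hP, Finset.card_image_of_injective, Finset.card_product, hQ]
    rintro ⟨h, q⟩ ⟨h', q'⟩ e
    simp only at e
    have hq : q = q' := by
      rw [← q.out_eq', ← q'.out_eq', QuotientGroup.eq]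
      have : q.out⁻¹ * q'.out = (h : G)⁻¹ * h' := by
        have : q.out⁻¹ = (h : G)⁻¹ * (h' * q'.out⁻¹) := by rw [← e]; group
        rw [this]; group
      rw [this]; exact H.mul_mem (H.inv_mem h.2) h'.2
    subst hq
    simpa using e
  have hE : (0 : ℝ) < E.1.card := by exact_mod_cast E.2.card_pos
  have hk' : (0 : ℝ) < k := by exact_mod_cast hk
  have hPn : P.Nonempty := by
    rw [← Finset.card_pos, hc]; exact Nat.mul_pos E.2.card_pos hk
  have h1 := m_le X P hPn
  haveI := fin_S X (Q.image fun q => q.out⁻¹)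
  haveI := fin_S (S X (Q.image fun q => q.out⁻¹)) E.1
  have h2 : L (S X P) ≤ L (S (S X (Q.image fun q => q.out⁻¹)) E.1) := by
    refine L_mono (Finset.sup_le fun t ht => ?_)
    obtain ⟨⟨h, q⟩, hp, rfl⟩ := Finset.mem_image.1 ht
    obtain ⟨hh, hq⟩ := Finset.mem_product.1 hp
    have a1 : sm q.out⁻¹ X ≤ S X (Q.image fun q => q.out⁻¹) :=
      le_S X (Finset.mem_image.2 ⟨q, hq, rfl⟩)
    have a2 : sm h (S X (Q.image fun q => q.out⁻¹)) ≤ S (S X (Q.image fun q => q.out⁻¹)) E.1 :=
      le_S _ hh
    have a3 : ∀ U : AddSubgroup A, sm h U = sm (h : G) U := fun U => rfl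
    rw [a3] at a2
    show sm ((h : G) * q.out⁻¹) X ≤ _
    rw [← sm_sm]
    exact (sm_mono (h : G) a1).trans a2
  rw [hc, Nat.cast_mul, le_div_iff₀ (by positivity)] at h1
  rw [le_div_iff₀ hE]
  linarith
end

theorem result {G A ι κ : Type*} [Group G] [AddCommGroup A] [DistribMulAction G A]
    (H : Subgroup G) (hH : H.index = 0)
    (l : Filter ι) (F : ι → Finset G) (hF : IsFolner l F)
    (l' : Filter κ) (E : κ → Finset H) (hE : IsFolner l' E) :
    (∀ X : AddSubgroup A, Finite X →
      Tendsto (fun i => ell (traj (F i) (X : Set A)) / (F i).card) l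
        (𝓝 (Halg l F (X : Set A))) ∧
      Tendsto (fun j => ell (traj (E j) (X : Set A)) / (E j).card) l'
        (𝓝 (Halg l' E (X : Set A)))) ∧
    (ent A l' E < ⊤ → ent A l F = 0) := by
  refine ⟨fun X hX => ⟨?_, ?_⟩, fun h => ?_⟩
  · rw [Halg_eq hF]; exact conv hF X
  · rw [Halg_eq hE]; exact conv hE X
  · refine le_antisymm (iSup_le fun X => ?_) bot_le
    haveI := X.2
    rw [Halg_eq hF, nonpos_iff_eq_zero, ENNReal.ofReal_eq_zero]
    by_contra hm
    push Not at hm
    obtain ⟨k, hk⟩ := exists_nat_gt ((ent A l' E).toReal / m G X.1)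
    have hk0 : 0 < k := by
      have : (0 : ℝ) < k := lt_of_le_of_lt (div_nonneg ENNReal.toReal_nonneg hm.le) hk
      exact_mod_cast this
    obtain ⟨Y, hY, h1⟩ := key H hH X.1 k hk0
    have h2 : ENNReal.ofReal (Halg l' E (Y : Set A)) ≤ ent A l' E :=
      le_iSup (fun X : {X : AddSubgroup A // Finite X} =>
        ENNReal.ofReal (Halg l' E (X.1 : Set A))) ⟨Y, hY⟩
    rw [Halg_eq hE, ENNReal.ofReal_le_iff_le_toReal h.ne] at h2
    rw [div_lt_iff₀ hm] at hk
    linarith

end Pool.Agent.Results.MP_2cfe26_al.Zero
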